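import Pool.Agent.T2H17.MT.Basic
import Pool.Agent.T2H17.SI.Basic

/-!
The `L^1` norm of exponential sums with coefficients `a(n) n^{it}` for typical `t`.
-/

set_option autoImplicit false

open MeasureTheory Filter Topology Finset

namespace Pool.Agent.T2H17.LO

open Pool.Agent.T2H17.MT (S V term Aj mem_V pow_expand sum_le K K_le mean)

/-- Parseval -/
lemma parseval (s : Finset ℕ) (c : ℕ → ℂ) :
    ∫ x in (0 : ℝ)..1, ‖∑ n ∈ s, c n * Complex.exp (2 * Real.pi * Complex.I * n * x)‖ ^ 2 = ∑ n ∈ s, ‖c n‖ ^ 2 := by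
  have h1 : ∀ x : ℝ, ((‖∑ n ∈ s, c n * Complex.exp (2 * Real.pi * Complex.I * n * x)‖ ^ 2 : ℝ) : ℂ) =
      ∑ v ∈ s, ∑ w ∈ s, (c v * (starRingEnd ℂ) (c w)) *
        Complex.exp ((2 * Real.pi * Complex.I * (((v : ℤ) - (w : ℤ) : ℤ) : ℂ)) * x) := by
    intro x
    rw [← Complex.normSq_eq_norm_sq, ← Complex.mul_conj, map_sum, Finset.sum_mul_sum]
    refine Finset.sum_congr rfl fun v _ => Finset.sum_congr rfl fun w _ => ?_
    rw [map_mul, ← Complex.exp_conj]
    have e1 : (starRingEnd ℂ) (2 * Real.pi * Complex.I * w * x) = -(2 * Real.pi * Complex.I * w * x) := by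
      simp only [map_mul, Complex.conj_ofReal, Complex.conj_I, Complex.conj_natCast, map_ofNat]
      ring
    rw [e1]
    have : c v * Complex.exp (2 * Real.pi * Complex.I * v * x) *
        ((starRingEnd ℂ) (c w) * Complex.exp (-(2 * Real.pi * Complex.I * w * x))) =
        (c v * (starRingEnd ℂ) (c w)) *
          (Complex.exp (2 * Real.pi * Complex.I * v * x) * Complex.exp (-(2 * Real.pi * Complex.I * w * x))) := by ring
    rw [this, ← Complex.exp_add]
    congr 2
    push_cast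
    ring
  have hint : ∀ v w : ℕ, (∫ x in (0:ℝ)..1, Complex.exp ((2 * Real.pi * Complex.I * (((v : ℤ) - (w : ℤ) : ℤ) : ℂ)) * x)) =
      if v = w then 1 else 0 := by
    intro v w
    by_cases h : v = w
    · rw [if_pos h, h]
      simp
    · rw [if_neg h]
      have hne : ((v : ℤ) - (w : ℤ) : ℤ) ≠ 0 := by
        intro h0
        apply h
        have : (v : ℤ) = w := by linarith
        exact_mod_cast this
      have hc : 2 * Real.pi * Complex.I * (((v : ℤ) - (w : ℤ) : ℤ) : ℂ) ≠ 0 := by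
        have hpi : (Real.pi : ℂ) ≠ 0 := by exact_mod_cast Real.pi_ne_zero
        have hz : ((((v : ℤ) - (w : ℤ) : ℤ)) : ℂ) ≠ 0 := by exact_mod_cast hne
        exact mul_ne_zero (mul_ne_zero (mul_ne_zero two_ne_zero hpi) Complex.I_ne_zero) hz
      rw [integral_exp_mul_complex hc]
      have e1 : Complex.exp (2 * Real.pi * Complex.I * (((v : ℤ) - (w : ℤ) : ℤ) : ℂ) * ((1 : ℝ) : ℂ)) = 1 := by
        rw [Complex.exp_eq_one_iff]
        refine ⟨(v : ℤ) - (w : ℤ), ?_⟩
        push_cast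
        ring
      rw [e1]
      simp
  have h2 : ((∫ x in (0:ℝ)..1, ‖∑ n ∈ s, c n * Complex.exp (2 * Real.pi * Complex.I * n * x)‖ ^ 2 : ℝ) : ℂ) =
      ((∑ n ∈ s, ‖c n‖ ^ 2 : ℝ) : ℂ) := by
    rw [← intervalIntegral.integral_ofReal]
    rw [intervalIntegral.integral_congr (g := fun x : ℝ => ∑ v ∈ s, ∑ w ∈ s, (c v * (starRingEnd ℂ) (c w)) *
        Complex.exp ((2 * Real.pi * Complex.I * (((v : ℤ) - (w : ℤ) : ℤ) : ℂ)) * x)) (fun x _ => h1 x)]
    rw [intervalIntegral.integral_finsetSum (fun v _ => by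
      apply Continuous.intervalIntegrable
      fun_prop)]
    push_cast
    refine Finset.sum_congr rfl fun v hv => ?_
    rw [intervalIntegral.integral_finsetSum (fun v _ => by
      apply Continuous.intervalIntegrable
      fun_prop)]
    rw [Finset.sum_congr rfl (g := fun w => (c v * (starRingEnd ℂ) (c w)) * (if v = w then 1 else 0)) (fun w _ => by
      have hvw := hint v w
      push_cast at hvw
      rw [intervalIntegral.integral_const_mul, hvw])]
    simp only [mul_ite, mul_one, mul_zero]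
    rw [Finset.sum_ite_eq, if_pos hv, Complex.mul_conj, Complex.normSq_eq_norm_sq]
    push_cast
    rfl
  exact_mod_cast h2

/-- the square of the sum, grouped -/
lemma grouped (a : ℕ → ℂ) (k R : ℕ) (x t : ℝ) : S a R x t ^ k = ∑ j ∈ Finset.range (k * R + 1),
      Aj a k R j t * Complex.exp (2 * Real.pi * Complex.I * j * x) := by
  rw [pow_expand, ← Finset.sum_fiberwise_of_maps_to (fun v hv => sum_le hv)]
  refine Finset.sum_congr rfl fun j _ => ?_
  unfold Aj
  rw [Finset.sum_mul]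
  refine Finset.sum_congr rfl fun v hv => ?_
  rw [(Finset.mem_filter.mp hv).2]
  congr 2
  ring

/-- the fourth moment in `x` -/
noncomputable def E4 (a : ℕ → ℂ) (R : ℕ) (t : ℝ) : ℝ := ∑ j ∈ Finset.range (2 * R + 1), ‖Aj a 2 R j t‖ ^ 2

lemma fourth (a : ℕ → ℂ) (R : ℕ) (t : ℝ) : ∫ x in (0 : ℝ)..1, ‖S a R x t‖ ^ 4 = E4 a R t := by
  unfold E4
  rw [← parseval (Finset.range (2 * R + 1)) (fun j => Aj a 2 R j t)]
  refine intervalIntegral.integral_congr fun x _ => ?_
  change ‖S a R x t‖ ^ 4 = ‖∑ j ∈ Finset.range (2 * R + 1), Aj a 2 R j t *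
    Complex.exp (2 * Real.pi * Complex.I * j * x)‖ ^ 2
  rw [← grouped a 2 R x t, norm_pow, ← pow_mul]

lemma second (a : ℕ → ℂ) (R : ℕ) (t : ℝ) : ∫ x in (0 : ℝ)..1, ‖S a R x t‖ ^ 2 = ∑ n ∈ Finset.Icc 1 R, ‖a n‖ ^ 2 := by
  have h1 := parseval (Finset.Icc 1 R) (fun n => a n * (n : ℂ) ^ ((t : ℂ) * Complex.I))
  have h2 : ∑ n ∈ Finset.Icc 1 R, ‖a n * (n : ℂ) ^ ((t : ℂ) * Complex.I)‖ ^ 2 = ∑ n ∈ Finset.Icc 1 R, ‖a n‖ ^ 2 := by
    refine Finset.sum_congr rfl fun n hn => ?_
    have hn0 : 0 < n := (Finset.mem_Icc.mp hn).1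
    rw [norm_mul, Complex.norm_natCast_cpow_of_pos hn0]
    simp
  rw [h2] at h1
  exact h1

lemma cont_S (a : ℕ → ℂ) (R : ℕ) (t : ℝ) : Continuous (fun x : ℝ => S a R x t) := by
  unfold S
  fun_prop

/-- the inequality between the three norms -/
lemma young (a : ℕ → ℂ) (R : ℕ) (t l : ℝ) (hl : 0 < l) :
    3 * l ^ 2 * ∑ n ∈ Finset.Icc 1 R, ‖a n‖ ^ 2 ≤ 2 * l ^ 3 * (∫ x in (0 : ℝ)..1, ‖S a R x t‖) + E4 a R t := by
  rw [← second a R t, ← fourth a R t, ← intervalIntegral.integral_const_mul, ← intervalIntegral.integral_const_mul,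
    ← intervalIntegral.integral_add]
  · refine intervalIntegral.integral_mono_on zero_le_one ?_ ?_ ?_
    · exact ((cont_S a R t).norm.pow 2 |>.const_mul _).intervalIntegrable _ _
    · exact (((cont_S a R t).norm.const_mul _).add ((cont_S a R t).norm.pow 4)).intervalIntegrable _ _
    · intro x _
      have hs : 0 ≤ ‖S a R x t‖ := norm_nonneg _
      set s := ‖S a R x t‖
      have h1 : 0 ≤ s * (s - l) ^ 2 * (s + 2 * l) := by positivity
      nlinarith [h1]
  · exact ((cont_S a R t).norm.const_mul _).intervalIntegrable _ _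
  · exact ((cont_S a R t).norm.pow 4).intervalIntegrable _ _

end Pool.Agent.T2H17.LO
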