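import Pool.Agent.T2H17.LO.Basic
import Pool.Agent.T2H17.SI.Final
import Pool.Agent.T2H09.SG.E

/-!
The fourth moment for typical `t`, and the conclusion.
-/

set_option autoImplicit false

open MeasureTheory Filter Topology Finset

namespace Pool.Agent.T2H17.LO

open Pool.Agent.T2H17.MT (S V term Aj mem_V pow_expand sum_le K K_le mean)

lemma card_V (k R : ℕ) : (V k R).card = R ^ k := by
  unfold V
  rw [Fintype.card_piFinset]
  simp

lemma cont_Aj (a : ℕ → ℂ) (k R j : ℕ) : Continuous (Aj a k R j) := by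
  unfold Aj term
  fun_prop

lemma cont_E4 (a : ℕ → ℂ) (R : ℕ) : Continuous (E4 a R) := by
  unfold E4
  have := cont_Aj a 2 R
  fun_prop

lemma E4_nonneg (a : ℕ → ℂ) (R : ℕ) (t : ℝ) : 0 ≤ E4 a R t := by
  unfold E4
  positivity

/-- equal sum and equal product: at most two possibilities -/
lemma two (R j : ℕ) (v : Fin 2 → ℕ) (hv : ∑ i, v i = j) :
    (((V 2 R).filter (fun w => ∑ i, w i = j)).filter (fun w => ∏ i, w i = ∏ i, v i)).card ≤ 2 := by
  classical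
  have hsub : ((V 2 R).filter (fun w => ∑ i, w i = j)).filter (fun w => ∏ i, w i = ∏ i, v i) ⊆
      {v, ![v 1, v 0]} := by
    intro w hw
    rw [Finset.mem_filter, Finset.mem_filter] at hw
    obtain ⟨⟨_, h1⟩, h2⟩ := hw
    rw [← hv] at h1
    simp only [Fin.sum_univ_two, Fin.prod_univ_two] at h1 h2
    have h3 : ((w 0 : ℤ) - v 0) * ((w 0 : ℤ) - v 1) = 0 := by
      have e1 : (w 0 : ℤ) + w 1 = v 0 + v 1 := by exact_mod_cast h1
      have e2 : (w 0 : ℤ) * w 1 = v 0 * v 1 := by exact_mod_cast h2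
      have e3 : (w 1 : ℤ) = v 0 + v 1 - w 0 := by linarith
      rw [e3] at e2
      linarith
    rw [Finset.mem_insert, Finset.mem_singleton]
    rcases mul_eq_zero.mp h3 with h | h
    · left
      have h4 : w 0 = v 0 := by
        have : (w 0 : ℤ) = v 0 := by linarith
        exact_mod_cast this
      funext i
      fin_cases i
      · exact h4
      · change w 1 = v 1
        omega
    · right
      have h4 : w 0 = v 1 := by
        have : (w 0 : ℤ) = v 1 := by linarith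
        exact_mod_cast this
      funext i
      fin_cases i
      · exact h4
      · change w 1 = v 0
        omega
  exact (Finset.card_le_card hsub).trans Finset.card_le_two

lemma prod_mem {k R : ℕ} {v : Fin k → ℕ} (hv : v ∈ V k R) : 1 ≤ ∏ i, v i ∧ ∏ i, v i ≤ R ^ k := by
  constructor
  · refine Nat.one_le_iff_ne_zero.mpr (Finset.prod_ne_zero_iff.mpr fun i _ => ?_)
    have := (mem_V.mp hv i).1
    omega
  · calc ∏ i, v i ≤ ∏ _i : Fin k, R := Finset.prod_le_prod' fun i _ => (mem_V.mp hv i).2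
      _ = R ^ k := by simp

lemma int_E4 (a : ℕ → ℂ) (ha : ∀ n, ‖a n‖ ≤ 1) (R : ℕ) (T₀ T : ℝ) (hRT : (R : ℝ) ^ 4 ≤ T) :
    ∫ t in T₀..(T₀ + T), E4 a R t ≤ 4 * (R : ℝ) ^ 2 * T := by
  classical
  have hT : 0 ≤ T := le_trans (by positivity) hRT
  unfold E4
  rw [intervalIntegral.integral_finsetSum (fun j _ => by
    apply Continuous.intervalIntegrable
    exact (cont_Aj a 2 R j).norm.pow 2)]
  have h1 : ∀ j ∈ Finset.range (2 * R + 1), (∫ t in T₀..(T₀ + T), ‖Aj a 2 R j t‖ ^ 2) ≤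
      ∑ v ∈ (V 2 R).filter (fun v => ∑ i, v i = j), (2 * T + (R : ℝ) ^ 2 * (2 * (R : ℝ) ^ 2)) := by
    intro j _
    have h2 := mean ((V 2 R).filter (fun v => ∑ i, v i = j)) (fun v => ∏ i, a (v i))
      (fun v => Real.log ((∏ i, v i : ℕ) : ℝ)) (fun v _ => by
        rw [norm_prod]
        exact Finset.prod_le_one (fun _ _ => norm_nonneg _) (fun i _ => ha _)) T₀ T hT
    refine h2.trans (Finset.sum_le_sum fun v hv => ?_)
    rw [Finset.mem_filter] at hv
    rw [← Finset.sum_filter_add_sum_filter_not ((V 2 R).filter (fun v => ∑ i, v i = j))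
      (fun w => ∏ i, w i = ∏ i, v i)]
    refine add_le_add ?_ ?_
    · calc ∑ w ∈ ((V 2 R).filter (fun w => ∑ i, w i = j)).filter (fun w => ∏ i, w i = ∏ i, v i),
            K T₀ T (Real.log ((∏ i, v i : ℕ) : ℝ) - Real.log ((∏ i, w i : ℕ) : ℝ))
          ≤ ∑ w ∈ ((V 2 R).filter (fun w => ∑ i, w i = j)).filter (fun w => ∏ i, w i = ∏ i, v i), T :=
            Finset.sum_le_sum fun w _ => K_le hT
        _ = ((((V 2 R).filter (fun w => ∑ i, w i = j)).filter (fun w => ∏ i, w i = ∏ i, v i)).card : ℝ) * T := by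
            rw [Finset.sum_const, nsmul_eq_mul]
        _ ≤ 2 * T := by
            have : ((((V 2 R).filter (fun w => ∑ i, w i = j)).filter (fun w => ∏ i, w i = ∏ i, v i)).card : ℝ) ≤ 2 := by
              exact_mod_cast two R j v hv.2
            gcongr
    · calc ∑ w ∈ ((V 2 R).filter (fun w => ∑ i, w i = j)).filter (fun w => ¬ ∏ i, w i = ∏ i, v i),
            K T₀ T (Real.log ((∏ i, v i : ℕ) : ℝ) - Real.log ((∏ i, w i : ℕ) : ℝ))
          ≤ ∑ w ∈ ((V 2 R).filter (fun w => ∑ i, w i = j)).filter (fun w => ¬ ∏ i, w i = ∏ i, v i),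
              2 * ((R ^ 2 : ℕ) : ℝ) := by
            refine Finset.sum_le_sum fun w hw => ?_
            rw [Finset.mem_filter, Finset.mem_filter] at hw
            exact Pool.Agent.T2H17.SI.K_far (prod_mem hv.1).1 (prod_mem hw.1.1).1 (prod_mem hv.1).2
              (prod_mem hw.1.1).2 (fun h => hw.2 h.symm)
        _ ≤ ∑ w ∈ V 2 R, 2 * ((R ^ 2 : ℕ) : ℝ) :=
            Finset.sum_le_sum_of_subset_of_nonneg ((Finset.filter_subset _ _).trans (Finset.filter_subset _ _))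
              (fun _ _ _ => by positivity)
        _ = (R : ℝ) ^ 2 * (2 * (R : ℝ) ^ 2) := by
            rw [Finset.sum_const, card_V, nsmul_eq_mul]
            push_cast
            ring
  refine (Finset.sum_le_sum h1).trans ?_
  rw [Finset.sum_fiberwise_of_maps_to (fun v hv => sum_le hv), Finset.sum_const, card_V, nsmul_eq_mul]
  push_cast
  have h5 : (R : ℝ) ^ 2 * (2 * (R : ℝ) ^ 2) ≤ 2 * T := by
    calc (R : ℝ) ^ 2 * (2 * (R : ℝ) ^ 2) = 2 * (R : ℝ) ^ 4 := by ring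
      _ ≤ 2 * T := by gcongr
  calc (R : ℝ) ^ 2 * (2 * T + (R : ℝ) ^ 2 * (2 * (R : ℝ) ^ 2)) ≤ (R : ℝ) ^ 2 * (2 * T + 2 * T) := by gcongr
    _ = 4 * (R : ℝ) ^ 2 * T := by ring

/-- **Main theorem**, for general coefficients -/
theorem main (a : ℕ → ℂ) (ha : ∀ n, ‖a n‖ ≤ 1) (R : ℕ) (hR : 1 ≤ R)
    (h2 : (R : ℝ) / 4 ≤ ∑ n ∈ Finset.Icc 1 R, ‖a n‖ ^ 2) (T₀ T δ : ℝ) (hδ : 0 < δ) (hRT : (R : ℝ) ^ 4 ≤ T) :
    volume {t : ℝ | t ∈ Set.Icc T₀ (T₀ + T) ∧ ∫ x in (0:ℝ)..1, ‖S a R x t‖ < δ / 40 * Real.sqrt R} ≤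
      ENNReal.ofReal (δ ^ 2 * T) := by
  have hR0 : (0 : ℝ) < R := by exact_mod_cast hR
  have hT : 0 ≤ T := le_trans (by positivity) hRT
  have hsub : {t : ℝ | t ∈ Set.Icc T₀ (T₀ + T) ∧ ∫ x in (0:ℝ)..1, ‖S a R x t‖ < δ / 40 * Real.sqrt R} ⊆
      {t : ℝ | t ∈ Set.Icc T₀ (T₀ + T) ∧ 4 * (R : ℝ) ^ 2 / δ ^ 2 ≤ E4 a R t} := by
    rintro t ⟨ht, hlt⟩
    refine ⟨ht, ?_⟩
    by_contra hcon
    rw [not_le] at hcon
    set l : ℝ := 4 * Real.sqrt R / δ with hl
    have hsR : 0 < Real.sqrt R := Real.sqrt_pos.mpr hR0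
    have hl0 : 0 < l := by positivity
    have hy := young a R t l hl0
    have hl2 : l ^ 2 = 16 * R / δ ^ 2 := by
      rw [hl, div_pow, mul_pow, Real.sq_sqrt hR0.le]
      norm_num
    have h3 : 3 * l ^ 2 * ((R : ℝ) / 4) ≤ 3 * l ^ 2 * ∑ n ∈ Finset.Icc 1 R, ‖a n‖ ^ 2 := by gcongr
    have h4 : 3 * l ^ 2 * ((R : ℝ) / 4) = 12 * R ^ 2 / δ ^ 2 := by
      rw [hl2]
      field_simp
      ring
    have h5 : 2 * l ^ 3 * (∫ x in (0:ℝ)..1, ‖S a R x t‖) ≤ 2 * l ^ 3 * (δ / 40 * Real.sqrt R) := by gcongr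
    have h6 : 2 * l ^ 3 * (δ / 40 * Real.sqrt R) = 16 / 5 * (R ^ 2 / δ ^ 2) := by
      have e : l ^ 3 = l ^ 2 * l := by ring
      rw [e, hl2, hl]
      have e2 : Real.sqrt R * Real.sqrt R = R := Real.mul_self_sqrt hR0.le
      calc 2 * (16 * R / δ ^ 2 * (4 * Real.sqrt R / δ)) * (δ / 40 * Real.sqrt R)
          = 16 / 5 * (R * (Real.sqrt R * Real.sqrt R) / δ ^ 2) := by
            field_simp
            ring
        _ = 16 / 5 * (R ^ 2 / δ ^ 2) := by rw [e2]; ring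
    have h7 : 0 < (R : ℝ) ^ 2 / δ ^ 2 := by positivity
    have h8 : 4 * (R : ℝ) ^ 2 / δ ^ 2 = 4 * (R ^ 2 / δ ^ 2) := by ring
    have h9 : 12 * (R : ℝ) ^ 2 / δ ^ 2 = 12 * (R ^ 2 / δ ^ 2) := by ring
    rw [h8] at hcon
    rw [h9] at h4
    linarith
  refine (measure_mono hsub).trans ?_
  refine (Pool.Agent.T2H17.SI.markov _ (cont_E4 a R) (E4_nonneg a R) T₀ T _ _ hT (by positivity)
    (int_E4 a ha R T₀ T hRT)).trans (le_of_eq ?_)
  congr 1
  field_simp

/-- the Moebius function, twisted by unimodular weights -/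
theorem mainMu (w : ℕ → ℂ) (hw : ∀ n, ‖w n‖ = 1) (R : ℕ) (hR : 1 ≤ R) (T₀ T δ : ℝ) (hδ : 0 < δ)
    (hRT : (R : ℝ) ^ 4 ≤ T) :
    volume {t : ℝ | t ∈ Set.Icc T₀ (T₀ + T) ∧ ∫ x in (0:ℝ)..1,
      ‖∑ n ∈ Finset.Icc 1 R, ((ArithmeticFunction.moebius n : ℤ) : ℂ) * w n * (n : ℂ) ^ ((t : ℂ) * Complex.I) *
        Complex.exp (2 * Real.pi * Complex.I * n * x)‖ < δ / 40 * Real.sqrt R} ≤
      ENNReal.ofReal (δ ^ 2 * T) := by
  classical
  have habs : ∀ n, ‖((ArithmeticFunction.moebius n : ℤ) : ℂ) * w n‖ = if Squarefree n then 1 else 0 := by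
    intro n
    rw [norm_mul, hw, mul_one]
    by_cases h : Squarefree n
    · rw [if_pos h]
      rcases ArithmeticFunction.moebius_ne_zero_iff_eq_or.mp (ArithmeticFunction.moebius_ne_zero_iff_squarefree.mpr h) with h1 | h1 <;>
        rw [h1] <;> simp
    · rw [if_neg h, ArithmeticFunction.moebius_eq_zero_of_not_squarefree h]
      simp
  refine main (fun n => ((ArithmeticFunction.moebius n : ℤ) : ℂ) * w n) (fun n => ?_) R hR ?_ T₀ T δ hδ hRT
  · rw [habs]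
    split_ifs <;> norm_num
  · refine (Pool.Agent.T2H09.SG.squarefree_count R).trans (le_of_eq ?_)
    rw [Finset.sum_congr rfl (g := fun n => if Squarefree n then (1 : ℝ) else 0) (fun n _ => by
      rw [habs]
      split_ifs <;> norm_num)]
    rw [← Finset.sum_filter]
    simp

end Pool.Agent.T2H17.LO
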